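import Pool.Agent.MHP.Stmts

/-!
# MHP, row DPC: linear dependence of rows; residual set of properties
-/

set_option autoImplicit false

namespace Pool.Agent.MHP.H94

open Pool.Agent.HMT

/-- A linear dependence between the rows of pairwise non-isomorphic connected rooted graphs. -/
theorem dpc (hcis : CisStmt) (P : GProp) (g : ℕ) (L : Type) [Fintype L] (C : L → PG)
    (a : L → ℤ) (hC : ∀ l, (C l).G.Connected ∧ Spr g (C l).G)
    (hiso : ∀ l l', PIso (C l) (C l') → l = l') (ha : ∃ l, a l ≠ 0)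
    (h : ∀ X : PG, Spr g X.G → (∀ v w, X.G.Adj X.r v → X.G.Adj X.r w → v = w) →
      ∑ l, a l * mu P (glue X.G X.r (C l).G (C l).r) = 0) : RowDep P g := by
  classical
  obtain ⟨hrefl, hsymm, htrans, hcomp, hcc, hconn, hedge⟩ := hcis
  obtain ⟨l₁, hl₁⟩ := ha
  obtain ⟨l₀, hl₀, hmax⟩ := (Finset.univ.filter fun l => a l ≠ 0).exists_max_image
    (fun l => Nat.card (C l).G.edgeSet) ⟨l₁, by simpa using hl₁⟩
  have ha0 : a l₀ ≠ 0 := by simpa using hl₀
  refine ⟨C l₀, {l : L // l ≠ l₀ ∧ a l ≠ 0}, inferInstance, fun l => C l.1, a l₀,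
    fun l => - a l.1, (hC l₀).1, ha0, (hC l₀).2, ?_, ?_⟩
  · rintro ⟨l, hl1, hl2⟩
    refine ⟨(hC l).2, ?_, ?_⟩
    · intro h1
      exact hl1 (hiso _ _ (htrans _ _ _ (hsymm _ _ (hcc _ (hC l).1)) h1))
    · have h1 := hedge _ _ (hcc _ (hC l).1)
      have h2 := hmax l (by simpa using hl2)
      exact h1.le.trans h2
  · intro X hX hp
    have h1 := h X hX hp
    have h2 : ∑ l, a l * mu P (glue X.G X.r (C l).G (C l).r) =
        a l₀ * mu P (glue X.G X.r (C l₀).G (C l₀).r) +
          ∑ l ∈ Finset.univ.filter (fun l => l ≠ l₀ ∧ a l ≠ 0),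
            a l * mu P (glue X.G X.r (C l).G (C l).r) := by
      rw [← Finset.add_sum_erase _ _ (Finset.mem_univ l₀)]
      congr 1
      symm
      apply Finset.sum_subset
      · intro l hl
        simp only [Finset.mem_filter, Finset.mem_univ, true_and] at hl
        exact Finset.mem_erase.2 ⟨hl.1, Finset.mem_univ _⟩
      · intro l hl hl2
        have hl1 := (Finset.mem_erase.1 hl).1
        have h3 : a l = 0 := by
          by_contra h4
          exact hl2 (by simp [hl1, h4])
        rw [h3, zero_mul]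
    rw [h2] at h1
    have h3 : ∑ l ∈ Finset.univ.filter (fun l => l ≠ l₀ ∧ a l ≠ 0),
        a l * mu P (glue X.G X.r (C l).G (C l).r) =
        ∑ l : {l : L // l ≠ l₀ ∧ a l ≠ 0},
          a l.1 * mu P (glue X.G X.r (C l.1).G (C l.1).r) := by
      exact Finset.sum_subtype _ (by simp) _
    rw [h3] at h1
    have h4 : ∑ l : {l : L // l ≠ l₀ ∧ a l ≠ 0},
        (- a l.1) * mu P (glue X.G X.r (C l.1).G (C l.1).r) =
        - ∑ l : {l : L // l ≠ l₀ ∧ a l ≠ 0},
          a l.1 * mu P (glue X.G X.r (C l.1).G (C l.1).r) := by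
      rw [← Finset.sum_neg_distrib]
      exact Finset.sum_congr rfl fun l _ => by ring
    rw [h4]
    linarith

/-- truncation: no members of order `> s` -/
def trunc (P : GProp) (s : ℕ) : GProp where
  mem := fun V _ G => Nat.card V ≤ s ∧ P.mem G
  iso := fun V W _ _ G H h => by
    obtain ⟨e⟩ := h
    rw [Nat.card_congr e.toEquiv, P.iso G H ⟨e⟩]

theorem hc_congr (P Q : GProp) {V : Type} [Finite V] (G : SimpleGraph V)
    (h : ∀ (W : Type) [Finite W] (H : SimpleGraph W), Nat.card W ≤ Nat.card V →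
      (P.mem H ↔ Q.mem H)) (i : ℕ) : hc P G i = hc Q G i := by
  unfold hc
  apply Nat.card_congr
  apply Equiv.subtypeEquivRight
  intro π
  apply and_congr Iff.rfl
  apply forall_congr'
  intro v
  exact h _ _ (Nat.card_le_card_of_injective _ Subtype.val_injective)

/-- The properties with mates of order `≥ s` are dense and open. -/
theorem resid (hmai : MaiStmt) (P : GProp) (s : ℕ) :
    ∃ (P' : GProp) (n : ℕ), (∀ (V : Type) [Finite V] (G : SimpleGraph V), Nat.card V ≤ s →
      (P'.mem G ↔ P.mem G)) ∧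
      ∀ Q : GProp, (∀ (V : Type) [Finite V] (G : SimpleGraph V), Nat.card V ≤ n →
        (Q.mem G ↔ P'.mem G)) → ∃ m, s ≤ m ∧ ∃ G H : SimpleGraph (Fin m), Mates Q G H := by
  have hdep : RowDep (trunc P s) 0 := by
    refine ⟨⟨Fin (s + 1), ⊤, 0⟩, Empty, inferInstance, fun e => e.elim, 1, fun e => e.elim,
      ?_, one_ne_zero, Or.inl rfl, fun e => e.elim, ?_⟩
    · exact SimpleGraph.connected_top
    · intro X _ _
      have h1 : ¬ (trunc P s).mem (glue X.G X.r (⊤ : SimpleGraph (Fin (s + 1))) 0) := by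
        rintro ⟨h2, -⟩
        rw [Nat.card_sum] at h2
        have h3 : 0 < Nat.card X.V := by
          haveI : Nonempty X.V := ⟨X.r⟩
          exact Nat.card_pos
        have h4 : Nat.card {v : Fin (s + 1) // v ≠ 0} = s := by
          rw [Nat.card_eq_fintype_card, Fintype.card_subtype_compl, Fintype.card_subtype_eq,
            Fintype.card_fin]
          rfl
        omega
      unfold mu
      rw [if_neg h1]
      simp
  obtain ⟨n, hn, G, H, hGH⟩ := hmai _ _ hdep s
  refine ⟨trunc P s, n, ?_, ?_⟩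
  · intro V _ G hV
    exact ⟨fun h => h.2, fun h => ⟨hV, h⟩⟩
  · intro Q hQ
    refine ⟨n, hn, G, H, hGH.1, ?_⟩
    have h1 : ∀ (K : SimpleGraph (Fin n)), harary Q K = harary (trunc P s) K := by
      intro K
      unfold harary
      refine Finset.sum_congr rfl fun i _ => ?_
      rw [hc_congr Q (trunc P s) K (fun W _ L hW => hQ W L (by simpa using hW))]
    rw [h1, h1]
    exact hGH.2

end Pool.Agent.MHP.H94
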