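import Pool.Agent.Helper11_MHP.SLT

/-!
# MHP: the gadget in a context, seen from a hub, with the order of the context
-/

set_option autoImplicit false

namespace Pool.Agent.MHP.H94

open Pool.Agent.HMT Pool.Agent.MHP Pool.Agent.MHP.H11

theorem slt2 (h1 : AscStmt) (h2 : AttStmt) (M : Type) (f : Fn M) (hf : Inv f)
    (J : Type) [Finite J] (T₀ B : ℕ) (GG : Set (Equiv.Perm J)) (U : Type) [Finite U]
    (ρ : J → U) (H : SimpleGraph U) (j : J) (W : Type) [Finite W] (S T : SimpleGraph W)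
    (x : W) :
    ∃ (W' : Type) (_ : Finite W') (S' T' : SimpleGraph W') (x' : W'),
      Nat.card W' + 1 = Nat.card W + Nat.card (Ver T₀ B GG U) ∧
      ∀ (V : Type) [Finite V] (r : V) (Z : SimpleGraph V),
        ev f S T x (Gr T₀ B GG (fun i => (Sum.inl (ρ i) : U ⊕ {v : V // v ≠ r}))
            (glue H (ρ j) Z r)) (oo T₀ B GG (U ⊕ {v : V // v ≠ r})) = ev f S' T' x' Z r := by
  have hne : (Sum.inr (ρ j) : Ver T₀ B GG U) ≠ oo T₀ B GG U := by
    intro h
    exact Sum.inr_ne_inl h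
  refine ⟨W ⊕ {v : Ver T₀ B GG U // v ≠ oo T₀ B GG U}, inferInstance,
    glue S x ⊥ (oo T₀ B GG U), glue T x (Gr T₀ B GG ρ H) (oo T₀ B GG U),
    Sum.inr ⟨Sum.inr (ρ j), hne⟩, ?_, ?_⟩
  · classical
    have h := Nat.card_congr (Equiv.optionSubtypeNe (oo T₀ B GG U))
    rw [Finite.card_option] at h
    rw [Nat.card_sum]
    omega
  intro V _ r Z
  obtain ⟨e1, he1⟩ := h1 W (Ver T₀ B GG U) V (oo T₀ B GG U) (Sum.inr (ρ j)) hne r
  obtain ⟨e2, he20, he2⟩ := h2 J T₀ B GG U V r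
  have hsub : ∀ a : Ver T₀ B GG U ⊕ {v : V // v ≠ r}, a ≠ Sum.inl (oo T₀ B GG U) ↔
      e2 a ≠ oo T₀ B GG (U ⊕ {v : V // v ≠ r}) := by
    intro a
    rw [← he20]
    exact (e2.injective.ne_iff).symm
  symm
  unfold ev
  refine hf _ _ (e1.trans (Equiv.sumCongr (Equiv.refl W) (e2.subtypeEquiv hsub))) _ _ _ _ ?_ ?_
  · intro a b
    rw [Equiv.trans_apply, Equiv.trans_apply, ← he1]
    apply glue_transport e2 _ _ he20
    · intro c d
      constructor
      · intro h; exact h.elim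
      · intro h; exact (glue_bot_adj _ _ _ _ h).elim
    · intro c
      rfl
  · intro a b
    rw [Equiv.trans_apply, Equiv.trans_apply, ← he1]
    apply glue_transport e2 _ _ he20
    · intro c d
      exact he2 ρ H Z j c d
    · intro c
      rfl

end Pool.Agent.MHP.H94
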