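import Pool.Agent.Helper94_MHP.GAD
import Pool.Agent.Helper94_MHP.SLT2

/-!
# MHP: the gadget lemma for rooted graphs which do not contain `A`
-/

set_option autoImplicit false

namespace Pool.Agent.MHP.H94

open Pool.Agent.HMT

/-- The gadget lemma, for relations in which the `B l` have no subgraph whose root component is
isomorphic to `A`; the coefficients may depend on the order of the context. -/
theorem gad2 (hasc : AscStmt) (hatt : AttStmt) (hevi : EviStmt) (hswp : SwpStmt) (hnis : NisStmt) (hcon : ConStmt)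
    (hcrd : CrdStmt) (hcmp : CmpStmt) (hexc : ExcStmt) (hmxc : MxcStmt) (hcis : CisStmt)
    (hfam : FamStmt) (hsps : SpsStmt) (hspg : SpgStmt) (hspr : SprStmt) (hcng : CngStmt)
    (M : Type) [AddCommGroup M] (f : Fn M) (hf : Inv f)
    (htf : ∀ (n : ℤ) (m : M), n ≠ 0 → n • m = 0 → m = 0)
    (g : ℕ) (A : PG) (L : Type) [Fintype L] (B : L → PG) (a : ℕ → ℤ) (b : ℕ → L → ℤ)
    (hAc : A.G.Connected) (ha : ∀ n, a n ≠ 0)
    (hB : ∀ l, ∀ Z, Z ≤ (B l).G → ¬ PIso (PG.mk (B l).V Z (B l).r).comp A)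
    (hR : ∀ (W : Type) [Finite W] (S T : SimpleGraph W) (x : W),
      a (Nat.card W) • tog A.G (fun Z => ev f S T x Z A.r) =
        ∑ l, b (Nat.card W) l • tog (B l).G (fun Z => ev f S T x Z (B l).r))
    (hA : A.G ≠ ⊥) (hsA : Spr g A.G) (hsB : ∀ l, Spr g (B l).G) (N : ℕ) :
    ∃ G H : PG, G.G.Connected ∧ H.G.Connected ∧ ¬ Nonempty (G.G ≃g H.G) ∧
      Nat.card G.V = Nat.card H.V ∧ N ≤ Nat.card G.V ∧ Spr g G.G ∧ Spr g H.G ∧
      ∀ (W : Type) [Finite W] (S T : SimpleGraph W) (x : W),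
        ev f S T x G.G G.r = ev f S T x H.G H.r := by
  obtain ⟨hrefl, hsymm, htrans, hcomp, hcc, hconn, hedge⟩ := hcis
  obtain ⟨hmx1, hmx2⟩ := hmxc
  have hfin : Finite ({Z : SimpleGraph A.V // Z ≤ A.G} ⊕
      (Σ l, {Z : SimpleGraph (B l).V // Z ≤ (B l).G})) := by
    have h1 : ∀ (V : Type) [Finite V], Finite (SimpleGraph V) := by
      intro V _
      exact Finite.of_injective (fun G : SimpleGraph V => G.Adj)
        (fun G H h => SimpleGraph.ext h)
    have h2 := h1 A.V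
    have h3 : ∀ l, Finite (SimpleGraph (B l).V) := fun l => h1 (B l).V
    infer_instance
  let E : ({Z : SimpleGraph A.V // Z ≤ A.G} ⊕
      (Σ l, {Z : SimpleGraph (B l).V // Z ≤ (B l).G})) → PG :=
    Sum.elim (fun Z => PG.mk A.V Z.1 A.r) (fun p => PG.mk (B p.1).V p.2.1 (B p.1).r)
  have hsE : ∀ i, Spr g (E i).G := by
    rintro (Z | p)
    · exact hsps.1 g A.V A.G Z.1 Z.2 hsA
    · exact hsps.1 g (B p.1).V (B p.1).G p.2.1 p.2.2 (hsB p.1)
  have hbot : ¬ PIso (PG.mk A.V ⊥ A.r).comp A := by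
    intro h
    have h1 := hedge _ _ h
    have h2 : (PG.mk A.V ⊥ A.r).comp.G = ⊥ := by
      ext v w
      exact Iff.rfl
    have h3 : Nat.card ((PG.mk A.V ⊥ A.r).comp.G.edgeSet) = 0 := by
      rw [h2, SimpleGraph.edgeSet_bot]
      simp
    rw [h3] at h1
    have h4 : A.G.edgeSet = ∅ := by
      have h5 := h1.symm
      rw [Nat.card_coe_set_eq, Set.ncard_eq_zero (Set.toFinite _)] at h5
      exact h5
    exact hA (SimpleGraph.edgeSet_eq_empty.1 h4)
  obtain ⟨J, hJ1, hJ2, j0, U, hU, ρ, H, hbare, hdiff, hcov, hpair, hnA, hall, ⟨i1, hi1⟩, hsH⟩ :=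
    hfam _ E A g hsE ⟨Sum.inl ⟨⊥, bot_le⟩, hbot⟩
  have hJn : Nontrivial J := ⟨⟨i1, j0, hi1⟩⟩
  set B₀ := N + Nat.card U + Nat.card A.V + 2 with hB₀
  have hinj : Function.Injective ρ := by
    intro i k h
    apply hdiff
    rw [h]
  -- equality of the two gadgets if the root component occurs at another hub
  have hkey : ∀ (W : Type) [Finite W] (S T : SimpleGraph W) (x : W) (C : PG),
      (∃ i, i ≠ j0 ∧ PIso C.comp (PG.mk U H (ρ i)).comp) →
      DD f g B₀ (SG J 1) ρ H j0 S T x C.G C.r = DD f g B₀ (SG J (-1)) ρ H j0 S T x C.G C.r := by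
    intro W _ S T x C hC
    obtain ⟨i, hi, hiso⟩ := hC
    obtain ⟨η, hη⟩ := hexc J U ρ H j0 i hi hbare hdiff C hiso
    obtain ⟨-, -, -, -, -, hsg⟩ := hcrd J g B₀ U
    obtain ⟨φ, hφ⟩ := hswp J g B₀ (SG J 1) (SG J (-1)) (Equiv.swap j0 i) _ _
      (fun i => (Sum.inl (ρ i) : U ⊕ {v : C.V // v ≠ C.r}))
      (fun i => (Sum.inl (ρ i) : U ⊕ {v : C.V // v ≠ C.r}))
      (glue H (ρ j0) C.G C.r) (glue H (ρ j0) C.G C.r) (hsg j0 i hi.symm) η hη
    exact hevi M f hf
      (PG.mk _ (Gr g B₀ (SG J 1) (fun i => (Sum.inl (ρ i) : U ⊕ {v : C.V // v ≠ C.r}))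
        (glue H (ρ j0) C.G C.r)) (oo g B₀ (SG J 1) (U ⊕ {v : C.V // v ≠ C.r})))
      (PG.mk _ (Gr g B₀ (SG J (-1)) (fun i => (Sum.inl (ρ i) : U ⊕ {v : C.V // v ≠ C.r}))
        (glue H (ρ j0) C.G C.r)) (oo g B₀ (SG J (-1)) (U ⊕ {v : C.V // v ≠ C.r})))
      ⟨φ, hφ⟩ W S T x
  -- the relation for the gadget
  have hrelD : ∀ (W : Type) [Finite W] (S T : SimpleGraph W) (x : W) (ε : ℤˣ) (m : ℕ),
      m + 1 = Nat.card W + Nat.card (Ver g B₀ (SG J ε) U) →
      a m • tog A.G (fun Z => DD f g B₀ (SG J ε) ρ H j0 S T x Z A.r) =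
        ∑ l, b m l • tog (B l).G (fun Z => DD f g B₀ (SG J ε) ρ H j0 S T x Z (B l).r) := by
    intro W _ S T x ε m hm
    obtain ⟨W', hW', S', T', x', hc, hs⟩ := slt2 hasc hatt M f hf J g B₀ (SG J ε) U ρ H j0 W S T x
    have h1 := hR W' S' T' x'
    have hm2 : Nat.card W' = m := by omega
    rw [hm2] at h1
    have h2 : (fun Z => DD f g B₀ (SG J ε) ρ H j0 S T x Z A.r) =
        fun Z => ev f S' T' x' Z A.r := by
      funext Z
      exact hs A.V A.r Z
    have h3 : ∀ l, (fun Z => DD f g B₀ (SG J ε) ρ H j0 S T x Z (B l).r) =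
        fun Z => ev f S' T' x' Z (B l).r := by
      intro l
      funext Z
      exact hs (B l).V (B l).r Z
    rw [h2, h1]
    refine Finset.sum_congr rfl fun l _ => ?_
    rw [h3 l]
  have hmain : ∀ (W : Type) [Finite W] (S T : SimpleGraph W) (x : W),
      DD f g B₀ (SG J 1) ρ H j0 S T x A.G A.r = DD f g B₀ (SG J (-1)) ρ H j0 S T x A.G A.r := by
    intro W _ S T x
    have hW1 : 0 < Nat.card W := by
      haveI : Nonempty W := ⟨x⟩
      exact Nat.card_pos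
    obtain ⟨m, hm⟩ : ∃ m, m + 1 = Nat.card W + Nat.card (Ver g B₀ (SG J 1) U) :=
      ⟨Nat.card W + Nat.card (Ver g B₀ (SG J 1) U) - 1, by omega⟩
    have h1 := hrelD W S T x 1 m hm
    have h2 := hrelD W S T x (-1) m (by
      rw [← (hcrd J g B₀ U).1]
      exact hm)
    have h3 : ∀ l, tog (B l).G (fun Z => DD f g B₀ (SG J 1) ρ H j0 S T x Z (B l).r) =
        tog (B l).G (fun Z => DD f g B₀ (SG J (-1)) ρ H j0 S T x Z (B l).r) := by
      intro l
      refine (hcng (B l).V M (B l).G).1 _ _ fun Z hZ => ?_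
      apply hkey W S T x (PG.mk (B l).V Z (B l).r)
      rcases hall (Sum.inr ⟨l, ⟨Z, hZ⟩⟩) with h | h
      · exact absurd h (hB l Z hZ)
      · exact h
    have h4 : a m • tog A.G (fun Z => DD f g B₀ (SG J 1) ρ H j0 S T x Z A.r) =
        a m • tog A.G (fun Z => DD f g B₀ (SG J (-1)) ρ H j0 S T x Z A.r) := by
      rw [h1, h2]
      exact Finset.sum_congr rfl fun l _ => by rw [h3 l]
    have h5 : tog A.G (fun Z => DD f g B₀ (SG J 1) ρ H j0 S T x Z A.r) -
        tog A.G (fun Z => DD f g B₀ (SG J (-1)) ρ H j0 S T x Z A.r) = 0 := by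
      apply htf (a m) _ (ha m)
      rw [smul_sub, h4, sub_self]
    have h6 : tog A.G (fun Z => DD f g B₀ (SG J 1) ρ H j0 S T x Z A.r -
        DD f g B₀ (SG J (-1)) ρ H j0 S T x Z A.r) = 0 := by
      rw [← h5]
      unfold tog
      rw [← Finset.sum_sub_distrib]
      exact Finset.sum_congr rfl fun Z _ => smul_sub _ _ _
    rw [tog_top] at h6
    · have h7 := htf _ _ (by
        apply pow_ne_zero
        norm_num) h6
      exact sub_eq_zero.1 h7
    · intro Z hZ hne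
      rw [sub_eq_zero]
      apply hkey W S T x (PG.mk A.V Z A.r)
      rcases hall (Sum.inl ⟨Z, hZ⟩) with h | h
      · exact absurd (hmx1 A Z hZ h) hne
      · exact h
  -- the two graphs
  let U' := U ⊕ {v : A.V // v ≠ A.r}
  let ρ' : J → U' := fun i => Sum.inl (ρ i)
  let H' : SimpleGraph U' := glue H (ρ j0) A.G A.r
  obtain ⟨hc1, hc2, hc3, hc4⟩ := hcmp U A.V H (ρ j0) A.G A.r hbare
  have hcov' : ∀ u : U', ∃ i, H'.Reachable (ρ' i) u := by
    rintro (w | v)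
    · obtain ⟨i, hi⟩ := hcov w
      exact ⟨i, (hc3 _ _).2 hi⟩
    · exact ⟨j0, (hc4 v).2 (hAc.preconnected _ _)⟩
  have hdiff' : ∀ i k, H'.Reachable (ρ' i) (ρ' k) → i = k := fun i k h =>
    hdiff i k ((hc3 _ _).1 h)
  have hsH' : Spr g H' := hspg g A.V U H (ρ j0) A.G A.r hsH hsA
  have hcardU : Nat.card U' + 2 ≤ B₀ := by
    have h1 : Nat.card U' = Nat.card U + Nat.card {v : A.V // v ≠ A.r} := Nat.card_sum
    have h2 : Nat.card {v : A.V // v ≠ A.r} ≤ Nat.card A.V :=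
      Nat.card_le_card_of_injective (fun v => v.1) Subtype.val_injective
    omega
  obtain ⟨hcr1, hcr2, hcr3, hcr4, hcr5, -⟩ := hcrd J g B₀ U'
  refine ⟨PG.mk _ (Gr g B₀ (SG J 1) ρ' H') (oo g B₀ (SG J 1) U'),
    PG.mk _ (Gr g B₀ (SG J (-1)) ρ' H') (oo g B₀ (SG J (-1)) U'),
    hcon J g B₀ (SG J 1) U' ρ' H' hcov', hcon J g B₀ (SG J (-1)) U' ρ' H' hcov', ?_, hcr1, ?_,
    hspr J g B₀ g (SG J 1) U' ρ' H' (Nat.le_succ g) hdiff' hsH',
    hspr J g B₀ g (SG J (-1)) U' ρ' H' (Nat.le_succ g) hdiff' hsH', hmain⟩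
  · intro hiso
    apply hcr5
    refine hnis J g B₀ (SG J 1) (SG J (-1)) U' ρ' H' ?_ hcardU hcr3 hcr4 ?_ hiso
    · intro i k h
      exact hinj (Sum.inl_injective h)
    · intro j k hjk
      by_cases hj : j = j0 <;> by_cases hk : k = j0
      · rw [hj, hk]
      · exfalso
        subst hj
        have h1 := hc2 (ρ k) (fun h => hk (hinj h))
        exact hnA k hk (htrans _ _ _ (hsymm _ _ h1) (htrans _ _ _ (hsymm _ _ hjk)
          (htrans _ _ _ hc1 (hcc A hAc))))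
      · exfalso
        subst hk
        have h1 := hc2 (ρ j) (fun h => hj (hinj h))
        exact hnA j hj (htrans _ _ _ (hsymm _ _ h1) (htrans _ _ _ hjk
          (htrans _ _ _ hc1 (hcc A hAc))))
      · have h1 := hc2 (ρ j) (fun h => hj (hinj h))
        have h2 := hc2 (ρ k) (fun h => hk (hinj h))
        exact hpair j k hj hk (htrans _ _ _ (hsymm _ _ h1) (htrans _ _ _ hjk h2))
  · exact le_trans (by omega) hcr2

end Pool.Agent.MHP.H94
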