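import Pool.Agent.MHP.Stmts

/-!
# MHP, row HCO: properties which are constant on the large graphs containing a fixed graph
-/

set_option autoImplicit false

namespace Pool.Agent.MHP.H94

open Pool.Agent.HMT

/-- the graph with a dominating vertex `none`, the graph `D` and `k` more vertices -/
def cone {h : ℕ} (D : SimpleGraph (Fin h)) (k : ℕ) : SimpleGraph (Option (Fin h ⊕ Fin k)) where
  Adj
    | none, none => False
    | none, some _ => True
    | some _, none => True
    | some (.inl a), some (.inl b) => D.Adj a b
    | some (.inl _), some (.inr _) => False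
    | some (.inr _), some _ => False
  symm := ⟨by
    rintro (_ | (a | a)) (_ | (b | b)) hab
    · exact hab
    · exact hab
    · exact hab
    · exact hab
    · exact D.adj_symm hab
    · exact hab
    · exact hab
    · exact hab
    · exact hab⟩
  loopless := ⟨by
    rintro (_ | (a | a)) hab
    · exact hab
    · exact D.irrefl hab
    · exact hab⟩

theorem cone_adj {h : ℕ} (D : SimpleGraph (Fin h)) (k : ℕ) (v : Fin h ⊕ Fin k) :
    (cone D k).Adj none (some v) := by
  trivial

theorem cone_connected {h : ℕ} (D : SimpleGraph (Fin h)) (k : ℕ) : (cone D k).Connected := by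
  have h1 : ∀ v, (cone D k).Reachable none v := by
    rintro (_ | v)
    · exact SimpleGraph.Reachable.refl _
    · exact (cone_adj D k v).reachable
  exact ⟨fun v w => (h1 v).symm.trans (h1 w)⟩

/-- the embedding of `D` -/
theorem cone_emb {h : ℕ} (D : SimpleGraph (Fin h)) (k : ℕ) {W : Type} (X : SimpleGraph W)
    (x : W) (r : Option (Fin h ⊕ Fin k)) (hr : ∀ a, r ≠ some (Sum.inl a)) :
    Nonempty (D ↪g glue X x (cone D k) r) := by
  refine ⟨⟨⟨fun a => Sum.inr ⟨some (Sum.inl a), (hr a).symm⟩, ?_⟩, ?_⟩⟩
  · intro a b hab
    have h1 := Subtype.ext_iff.1 (Sum.inr_injective hab)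
    exact Sum.inl_injective (Option.some_injective _ h1)
  · intro a b
    exact Iff.rfl

/-- Membership is constant on the graphs of order `n ≥ n0` which contain `D`. -/
def HcoStmt : Prop :=
  ∀ (P : GProp) (h : ℕ) (D : SimpleGraph (Fin h)) (n0 : ℕ),
    (∀ (V W : Type) [Finite V] [Finite W] (G : SimpleGraph V) (H : SimpleGraph W),
      n0 ≤ Nat.card V → Nat.card V = Nat.card W → Nonempty (D ↪g G) → Nonempty (D ↪g H) →
      (P.mem G ↔ P.mem H)) → RowDep P 0

theorem hco (hcis : CisStmt) : HcoStmt := by
  intro P h D n0 hP
  obtain ⟨hrefl, hsymm, htrans, hcomp, hcc, hconn, hedge⟩ := hcis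
  let k := n0 + 2
  let A : PG := ⟨Option (Fin h ⊕ Fin k), cone D k, none⟩
  let M : PG := ⟨Option (Fin h ⊕ Fin k), cone D k, some (Sum.inr ⟨0, by omega⟩)⟩
  have hAc : A.G.Connected := cone_connected D k
  have hMc : M.G.Connected := cone_connected D k
  refine ⟨A, Unit, inferInstance, fun _ => M, 1, fun _ => 1, hAc, one_ne_zero, Or.inl rfl, ?_,
    ?_⟩
  · intro _
    refine ⟨Or.inl rfl, ?_, ?_⟩
    · intro hiso
      have h1 : PIso M A := htrans _ _ _ (hsymm _ _ (hcc M hMc)) hiso
      obtain ⟨φ, hφ⟩ := h1
      -- the root of `A` has two neighbours, the root of `M` only one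
      have h2 : ∀ v, A.G.Adj A.r v → φ.symm v = none := by
        intro v hv
        have h3 : M.G.Adj (φ.symm A.r) (φ.symm v) := φ.symm.map_adj_iff.2 hv
        have h4 : φ.symm A.r = M.r := by
          rw [← hφ]
          exact φ.symm_apply_apply _
        rw [h4] at h3
        cases hw : φ.symm v with
        | none => rfl
        | some w =>
          exfalso
          rw [hw] at h3
          rcases w with a | a
          · exact h3
          · exact h3
      have h5 := h2 (some (Sum.inr ⟨0, by omega⟩)) trivial
      have h6 := h2 (some (Sum.inr ⟨1, by omega⟩)) trivial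
      have h7 := φ.symm.injective (h5.trans h6.symm)
      have h8 := Sum.inr_injective (Option.some_injective _ h7)
      exact absurd (Fin.ext_iff.1 h8) (by norm_num)
    · have h1 := hedge _ _ (hcc M hMc)
      exact h1.le
  · intro X _ _
    rw [one_mul, Fintype.sum_unique, one_mul]
    have hc1 : Nat.card {v : A.V // v ≠ A.r} = Nat.card {v : M.V // v ≠ M.r} := by
      have h1 : ∀ r : Option (Fin h ⊕ Fin k), Nat.card {v : Option (Fin h ⊕ Fin k) // v ≠ r} =
          Nat.card (Option (Fin h ⊕ Fin k)) - 1 := by
        classical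
        intro r
        rw [Nat.card_eq_fintype_card, Nat.card_eq_fintype_card, Fintype.card_subtype_compl,
          Fintype.card_subtype_eq]
      exact (h1 _).trans (h1 _).symm
    have hc2 : n0 ≤ Nat.card {v : A.V // v ≠ A.r} := by
      have h1 : Nat.card (Fin k) ≤ Nat.card {v : A.V // v ≠ A.r} := by
        refine Nat.card_le_card_of_injective
          (fun i => (⟨some (Sum.inr i), by
            show (some (Sum.inr i) : Option (Fin h ⊕ Fin k)) ≠ none
            exact Option.some_ne_none _⟩ : {v : A.V // v ≠ A.r})) ?_
        intro i j hij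
        exact Sum.inr_injective (Option.some_injective _ (Subtype.ext_iff.1 hij))
      rw [Nat.card_eq_fintype_card, Fintype.card_fin] at h1
      omega
    have hmem := hP (X.V ⊕ {v : A.V // v ≠ A.r}) (X.V ⊕ {v : M.V // v ≠ M.r})
      (glue X.G X.r A.G A.r) (glue X.G X.r M.G M.r)
      (by rw [Nat.card_sum]; omega) (by rw [Nat.card_sum, Nat.card_sum, hc1])
      (cone_emb D k X.G X.r none (fun a => (Option.some_ne_none _).symm))
      (cone_emb D k X.G X.r _ (fun a h1 => by
        have := Option.some_injective _ h1
        exact absurd this (by simp)))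
    unfold mu
    by_cases h1 : P.mem (glue X.G X.r A.G A.r)
    · rw [if_pos h1, if_pos (hmem.1 h1)]
    · rw [if_neg h1, if_neg (fun h2 => h1 (hmem.2 h2))]

end Pool.Agent.MHP.H94
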