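import Pool.Agent.MHP.All
import Pool.Agent.MHP.Rows
import Pool.Agent.Helper94_MHP.GAD2

/-!
# MHP: the main theorem, final form
-/

set_option autoImplicit false

namespace Pool.Agent.MHP.H94

open Pool.Agent.HMT Pool.Agent.MHP.H98

/-- the relation of stage 1 -/
theorem st1r (h1 : MobStmt) (h2 : SplStmt) (h3 : EmbStmt) (h4 : CngStmt)
    (P : GProp) (A : PG) (L : Type) [Fintype L] (M : L → PG) (a : ℤ) (b : L → ℤ)
    (W : Type) [Finite W]
    (hX : ∀ X : PG, Nat.card X.V = Nat.card W → a * mu P (glue X.G X.r A.G A.r) =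
      ∑ l, b l * mu P (glue X.G X.r (M l).G (M l).r))
    (S T : SimpleGraph W) (x : W) :
    a • tog A.G (fun Z => ev (f1 P) S T x Z A.r) =
      ∑ l, b l • tog (M l).G (fun Z => ev (f1 P) S T x Z (M l).r) := by
  have key : ∀ (V : Type) [Finite V] (C : SimpleGraph V) (r : V),
      tog C (fun Z => ev (f1 P) S T x Z r) =
        tog T (fun Y => mu P (glue (S ⊔ Y) x C r)) := by
    intro V _ C r
    have e1 : ∀ Z : SimpleGraph V, ev (f1 P) S T x Z r =
        tog T (fun Y => tog Z (fun Z' => mu P (glue (S ⊔ Y) x Z' r))) := by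
      intro Z
      unfold ev f1
      rw [glue_bot T x Z r, h2 _ _ _ _ _ (disj T x Z r), h3]
      congr 1
      funext Y
      rw [h3]
      congr 1
      funext Z'
      rw [H98.glue_sup]
    simp only [e1]
    rw [(h4 V ℤ C).2.2.2.2 W T
      (fun Z Y => tog Z (fun Z' => mu P (glue (S ⊔ Y) x Z' r)))]
    congr 1
    funext Y
    exact h1 V ℤ C (fun Z' => mu P (glue (S ⊔ Y) x Z' r))
  rw [key]
  simp only [key]
  have e2 := (h4 W ℤ T).2.1 (fun Y => mu P (glue (S ⊔ Y) x A.G A.r)) a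
  rw [← e2]
  have e3 : ∀ l, b l • tog T (fun Y => mu P (glue (S ⊔ Y) x (M l).G (M l).r)) =
      tog T (fun Y => b l • mu P (glue (S ⊔ Y) x (M l).G (M l).r)) := fun l =>
    ((h4 W ℤ T).2.1 (fun Y => mu P (glue (S ⊔ Y) x (M l).G (M l).r)) (b l)).symm
  simp only [e3]
  rw [← (h4 W ℤ T).2.2.2.1 L Finset.univ
    (fun l Y => b l • mu P (glue (S ⊔ Y) x (M l).G (M l).r))]
  congr 1
  funext Y
  have := hX ⟨W, S ⊔ Y, x⟩ rfl
  simpa [smul_eq_mul] using this

/-- the order of the context `X'` of the planting -/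
theorem card_ctx (X X' : PG) (h : ∀ A : PG, Nonempty (glue X'.G X'.r A.G A.r ≃g
    glue X.G X.r (plant A).G (plant A).r)) : Nat.card X'.V = Nat.card X.V + 1 := by
  obtain ⟨φ⟩ := h ⟨Unit, ⊥, ()⟩
  have h1 := Nat.card_congr φ.toEquiv
  rw [Nat.card_sum, Nat.card_sum] at h1
  have h2 : Nat.card {v : Unit // v ≠ ()} = 0 := by
    haveI : IsEmpty {v : Unit // v ≠ ()} := ⟨fun v => v.2 rfl⟩
    exact Nat.card_of_isEmpty
  have h3 : Nat.card {v : (plant ⟨Unit, ⊥, ()⟩).V // v ≠ (plant ⟨Unit, ⊥, ()⟩).r} = 1 := by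
    haveI : Unique {v : (plant ⟨Unit, ⊥, ()⟩).V // v ≠ (plant ⟨Unit, ⊥, ()⟩).r} := by
      refine ⟨⟨⟨Sum.inl true, fun h => ?_⟩⟩, ?_⟩
      · exact absurd (Sum.inl_injective h) (by decide)
      · rintro ⟨(v | v), hv⟩
        · cases v
          · exact absurd rfl hv
          · rfl
        · exact absurd rfl v.2
    exact Nat.card_unique
  have h4 : Nat.card {v : (PG.mk Unit ⊥ ()).V // v ≠ (PG.mk Unit ⊥ ()).r} = 0 := h2
  omega

/-- planting: the relation for all contexts with one vertex less -/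
theorem plant_rel (P : GProp) (g n : ℕ) (A : PG) (L : Type) [Fintype L] (M : L → PG) (a : ℤ)
    (b : L → ℤ)
    (hrow : ∀ X : PG, Spr g X.G → Nat.card X.V = n →
      (∀ v w, X.G.Adj X.r v → X.G.Adj X.r w → v = w) →
      a * mu P (glue X.G X.r A.G A.r) = ∑ l, b l * mu P (glue X.G X.r (M l).G (M l).r))
    (X : PG) (hX : Spr g X.G) (hn : Nat.card X.V + 1 = n) :
    a * mu P (glue X.G X.r (plant A).G (plant A).r) =
      ∑ l, b l * mu P (glue X.G X.r (plant (M l)).G (plant (M l)).r) := by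
  obtain ⟨q1, q2, q3, q4, q5⟩ := Fin.pla
  obtain ⟨X', x1, x2, x3⟩ := q5 X
  have hc := card_ctx X X' x3
  have e : ∀ C : PG, mu P (glue X.G X.r (plant C).G (plant C).r) =
      mu P (glue X'.G X'.r C.G C.r) := fun C => (H25.mu_iso P _ _ (x3 C)).symm
  rw [e A, hrow X' (x2 g hX) (hc.trans hn) x1]
  exact Finset.sum_congr rfl fun l _ => by rw [e (M l)]

theorem deprows_succ (noc_plant : ∀ A M : PG, NoCopy A M → NoCopy (plant A) (plant M))
    (P : GProp) (g n0 : ℕ) (h : DepRows P g (n0 + 1)) : DepRows P g n0 := by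
  obtain ⟨A, L, hL, M, hAc, sA, hM, hrow⟩ := h
  obtain ⟨q1, q2, q3, q4, q5⟩ := Fin.pla
  refine ⟨plant A, L, hL, fun l => plant (M l), (q1 A hAc).1, q2 A g sA,
    fun l => ⟨q2 _ g (hM l).1, noc_plant A (M l) (hM l).2⟩, ?_⟩
  intro n hn
  obtain ⟨a, b, ha, hr⟩ := hrow (n + 1) (by omega)
  refine ⟨a, b, ha, ?_⟩
  intro X hX hc _
  exact plant_rel P g (n + 1) A L M a b hr X hX (by omega)

theorem deprows_zero (noc_plant : ∀ A M : PG, NoCopy A M → NoCopy (plant A) (plant M))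
    (P : GProp) (g n0 : ℕ) (h : DepRows P g n0) : DepRows P g 0 := by
  induction n0 with
  | zero => exact h
  | succ n ih => exact ih (deprows_succ noc_plant P g n h)

theorem mai2 (noc_plant : ∀ A M : PG, NoCopy A M → NoCopy (plant A) (plant M))
    (noc_comp : ∀ A M : PG, NoCopy A M → ∀ Z, Z ≤ M.G → ¬ PIso (PG.mk M.V Z M.r).comp A)
    (P : GProp) (g n0 : ℕ) (h : DepRows P g n0) : InfMates P := by
  obtain ⟨A, L, hL, M, hAc, sA, hM, hrow0⟩ := deprows_zero noc_plant P g n0 h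
  choose a b ha hrow using fun n => hrow0 (n + 1) (Nat.zero_le _)
  obtain ⟨P', p1, p2, p3⟩ := Fin.psp P g
  obtain ⟨q1, q2, q3, q4, q5⟩ := Fin.pla
  have hrel : ∀ X : PG, a (Nat.card X.V) * mu P' (glue X.G X.r (plant A).G (plant A).r) =
      ∑ l, b (Nat.card X.V) l * mu P' (glue X.G X.r (plant (M l)).G (plant (M l)).r) := by
    intro X
    by_cases hX : Spr g X.G
    · rw [p2 X (plant A) hX (q2 A g sA), plant_rel P g (Nat.card X.V + 1) A L M _ _
        (hrow (Nat.card X.V)) X hX rfl]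
      refine Finset.sum_congr rfl fun l _ => ?_
      rw [p2 X (plant (M l)) hX (q2 (M l) g (hM l).1)]
    · rw [p3 X (plant A) hX, mul_zero]
      refine (Finset.sum_eq_zero fun l _ => ?_).symm
      rw [p3 X (plant (M l)) hX, mul_zero]
  obtain ⟨G, H, g1, g2, g3, g4, g5, g6, g7, g8⟩ := gad2 H47.asc H8.att H35.evi H28.swp H23.nis H14.con
    H86.crd H29.cmp Fin.exc H69.mxc H45.cis Fin.fam H66.sps H62.spg Fin.spr H92.cng
    ℤ (f1 P') (H46.inf H95.emb P').1 (by
    intro n m hn0 hm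
    rw [smul_eq_mul, mul_eq_zero] at hm
    rcases hm with h | h
    · exact absurd h hn0
    · exact h) g (plant A) L (fun l => plant (M l)) a b (q1 A hAc).1 ha
    (fun l => noc_comp (plant A) (plant (M l)) (noc_plant A (M l) (hM l).2))
    (fun W _ S T x => st1r H72.mob H6.spl H95.emb H92.cng P' (plant A) L
      (fun l => plant (M l)) (a (Nat.card W)) (b (Nat.card W)) W
      (fun X hX => hX ▸ hrel X) S T x) (q1 A hAc).2 (q2 A g sA)
    (fun l => q2 (M l) g (hM l).1) 2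
  have hr : ∀ X : PG, tog G.G (fun Z => mu P' (glue X.G X.r Z G.r)) =
      tog H.G (fun Z => mu P' (glue X.G X.r Z H.r)) := by
    intro X
    have h := g8 X.V X.G ⊥ X.r
    rw [H25.ev1 H95.emb, H25.ev1 H95.emb] at h
    exact h
  refine Pool.Agent.HMT.Fin.fin P fun N => ?_
  rcases le_total (Nat.card H.G.edgeSet) (Nat.card G.G.edgeSet) with hle | hle
  · obtain ⟨G', H', k1, k2, k3, k4, k5, k6⟩ := H25.stage2 Fin.gad (H46.inf H95.emb) Fin.tog
      H45.cis P' g G H g1 g2 g3 g5 g6 g7 hle hr N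
    exact ⟨G'.V, H'.V, G'.fin, H'.fin, G'.G, H'.G, k3, k2, k1, fun i => by
      rw [p1 _ _ k4, p1 _ _ k5]
      exact k6 i⟩
  · obtain ⟨G', H', k1, k2, k3, k4, k5, k6⟩ := H25.stage2 Fin.gad (H46.inf H95.emb) Fin.tog
      H45.cis P' g H G g2 g1 (fun ⟨φ⟩ => g3 ⟨φ.symm⟩) (g4 ▸ g5) g7 g6 hle
      (fun X => (hr X).symm) N
    exact ⟨G'.V, H'.V, G'.fin, H'.fin, G'.G, H'.G, k3, k2, k1, fun i => by
      rw [p1 _ _ k4, p1 _ _ k5]
      exact k6 i⟩

end Pool.Agent.MHP.H94
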